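import Pool.Agent.Lib.MP_b7b517_ag.Main

/-!
On `X = P² × P³` over `ℂ`, the class `α = H₁ H₂` of 3-cycles has intersection numbers
`(α · H₂³, α · H₁ H₂², α · H₁² H₂, α · H₁³) = (0, 1, 0, 0)`, and its mobility count grows like
`m ^ (6 / 5)`.
-/

namespace Pool.Agent.Lib.MP_b7b517_ag.Old

open Filter Pool.Agent.Lib.MP_b7b517_ag
open scoped ENNReal

theorem result : IsGreatest {r : ℝ | 0 < limsup
    (fun m : ℕ => mc (m • ![0, 1, 0, 0]) / (m : ℝ≥0∞) ^ r) atTop} (6 / 5) := main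

end Pool.Agent.Lib.MP_b7b517_ag.Old
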